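import Pool.Agent.helper71.DSW.SpecC

/-!
# Project dsw (MP_a87880_co), row GPA
-/

set_option autoImplicit false

namespace Pool.Agent.DSW

open Equiv Finset Function Pool.Agent.helper48.PP
open scoped ENNReal Classical

noncomputable section

theorem GPA_one (hPRD : PRD_stmt) (hGEO : GEO_stmt) (L H : ℕ) (hH : 1 ≤ H) (b : Fin L)
    (f : ℕ → ℝ≥0∞) :
    ∑' x : Fin L → ℕ, (∏ i, wt H (x i)) * f (x b) = ∑' j, wt H j * f j := by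
  have h := hPRD (Fin L) (fun i j => wt H j * (if i = b then f j else 1))
  have h1 : ∀ x : Fin L → ℕ, ∏ i, (wt H (x i) * (if i = b then f (x i) else 1))
      = (∏ i, wt H (x i)) * f (x b) := by
    intro x
    rw [Finset.prod_mul_distrib, Finset.prod_ite_eq' Finset.univ b (fun i => f (x i)),
      if_pos (Finset.mem_univ b)]
  have h2 : ∏ i : Fin L, ∑' j, (wt H j * (if i = b then f j else 1)) = ∑' j, wt H j * f j := by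
    rw [Finset.prod_eq_single b]
    · simp
    · intro i _ hi
      simp [hi, (hGEO H hH).1]
    · simp
  rw [h2] at h
  rw [← h]
  exact tsum_congr fun x => (h1 x).symm

theorem GPA_mean (hPRD : PRD_stmt) (hGEO : GEO_stmt) (L H : ℕ) (hH : 1 ≤ H) :
    ∑' x : Fin L → ℕ, (∏ i, wt H (x i)) * ((∑ b, x b : ℕ) : ℝ≥0∞) = L * H := by
  have h1 : ∀ x : Fin L → ℕ, (∏ i, wt H (x i)) * ((∑ b, x b : ℕ) : ℝ≥0∞)
      = ∑ b, (∏ i, wt H (x i)) * (x b : ℝ≥0∞) := by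
    intro x
    rw [Nat.cast_sum, Finset.mul_sum]
  rw [tsum_congr h1, Summable.tsum_finsetSum (fun b _ => ENNReal.summable)]
  have h2 : ∀ b : Fin L, ∑' x : Fin L → ℕ, (∏ i, wt H (x i)) * (x b : ℝ≥0∞) = H := by
    intro b
    rw [GPA_one hPRD hGEO L H hH b (fun j => (j : ℝ≥0∞))]
    exact (hGEO H hH).2.1
  rw [Finset.sum_congr rfl fun b _ => h2 b]
  simp

theorem GPA_sq (hPRD : PRD_stmt) (hGEO : GEO_stmt) (L H : ℕ) (hH : 1 ≤ H) :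
    ∑' x : Fin L → ℕ, (∏ i, wt H (x i)) * ((∑ b, x b : ℕ) : ℝ≥0∞) ^ 2
      ≤ 3 * (L : ℝ≥0∞) ^ 2 * (H : ℝ≥0∞) ^ 2 := by
  have h1 : ∀ x : Fin L → ℕ, (∏ i, wt H (x i)) * ((∑ b, x b : ℕ) : ℝ≥0∞) ^ 2
      ≤ L * ∑ b, (∏ i, wt H (x i)) * (x b : ℝ≥0∞) ^ 2 := by
    intro x
    have h2 : (∑ b, x b) ^ 2 ≤ L * ∑ b, x b ^ 2 := by
      have h3 := sq_sum_le_card_mul_sum_sq (s := (Finset.univ : Finset (Fin L))) (f := x)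
      simpa using h3
    have h4 : ((∑ b, x b : ℕ) : ℝ≥0∞) ^ 2 ≤ L * ∑ b, (x b : ℝ≥0∞) ^ 2 := by
      exact_mod_cast h2
    calc (∏ i, wt H (x i)) * ((∑ b, x b : ℕ) : ℝ≥0∞) ^ 2
        ≤ (∏ i, wt H (x i)) * (L * ∑ b, (x b : ℝ≥0∞) ^ 2) := by gcongr
      _ = L * ∑ b, (∏ i, wt H (x i)) * (x b : ℝ≥0∞) ^ 2 := by
        rw [← Finset.mul_sum]; ring
  have h2 : ∀ b : Fin L, ∑' x : Fin L → ℕ, (∏ i, wt H (x i)) * (x b : ℝ≥0∞) ^ 2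
      = 2 * (H : ℝ≥0∞) ^ 2 + H := by
    intro b
    rw [GPA_one hPRD hGEO L H hH b (fun j => (j : ℝ≥0∞) ^ 2)]
    exact (hGEO H hH).2.2.1
  have hH2 : (H : ℝ≥0∞) ≤ (H : ℝ≥0∞) ^ 2 := by
    have h3 : H ≤ H ^ 2 := Nat.le_self_pow (by norm_num) H
    exact_mod_cast h3
  calc ∑' x : Fin L → ℕ, (∏ i, wt H (x i)) * ((∑ b, x b : ℕ) : ℝ≥0∞) ^ 2
      ≤ ∑' x : Fin L → ℕ, L * ∑ b, (∏ i, wt H (x i)) * (x b : ℝ≥0∞) ^ 2 :=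
        ENNReal.tsum_le_tsum h1
    _ = L * ∑ b : Fin L, ∑' x : Fin L → ℕ, (∏ i, wt H (x i)) * (x b : ℝ≥0∞) ^ 2 := by
        rw [ENNReal.tsum_mul_left, Summable.tsum_finsetSum (fun b _ => ENNReal.summable)]
    _ = L * (L * (2 * (H : ℝ≥0∞) ^ 2 + H)) := by
        rw [Finset.sum_congr rfl fun b _ => h2 b, Finset.sum_const, Finset.card_univ,
          Fintype.card_fin, nsmul_eq_mul]
    _ ≤ L * (L * (2 * (H : ℝ≥0∞) ^ 2 + (H : ℝ≥0∞) ^ 2)) := by gcongr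
    _ = 3 * (L : ℝ≥0∞) ^ 2 * (H : ℝ≥0∞) ^ 2 := by ring

theorem GPA (hGPB : GPB_stmt) (hPRD : PRD_stmt) (hGEO : GEO_stmt) : GPA_stmt := by
  intro L H θ hH h0 h1
  have hHr : (1 : ℝ) ≤ (H : ℝ) := by exact_mod_cast hH
  have hHpos : (0 : ℝ) < (H : ℝ) := by linarith
  have hp0 : 0 ≤ θ / (H : ℝ) ^ 2 := by positivity
  have hp1 : θ / (H : ℝ) ^ 2 ≤ 1 := by
    rw [div_le_one (by positivity)]
    nlinarith
  set p : ℝ := θ / (H : ℝ) ^ 2 with hp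
  have hbound : ∀ M M' : ℕ, ENNReal.ofReal (Pr (Finset.range M ×ˢ Finset.range M') p
      (fun S => ¬ GP S)) ≤ ENNReal.ofReal (p ^ 2) *
        ((M : ℝ≥0∞) * (M' : ℝ≥0∞) ^ 2 + (M : ℝ≥0∞) ^ 2 * (M' : ℝ≥0∞)) := by
    intro M M'
    calc ENNReal.ofReal (Pr (Finset.range M ×ˢ Finset.range M') p (fun S => ¬ GP S))
        ≤ ENNReal.ofReal (p ^ 2 * ((M : ℝ) * (M' : ℝ) ^ 2 + (M : ℝ) ^ 2 * (M' : ℝ))) :=
          ENNReal.ofReal_le_ofReal (hGPB M M' p hp0 hp1)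
      _ = _ := by
        rw [ENNReal.ofReal_mul (by positivity)]
        congr 1
        have h2 : (M : ℝ) * (M' : ℝ) ^ 2 + (M : ℝ) ^ 2 * (M' : ℝ)
            = ((M * M' ^ 2 + M ^ 2 * M' : ℕ) : ℝ) := by push_cast; ring
        rw [h2, ENNReal.ofReal_natCast]
        push_cast
        ring
  have hE1 := GPA_mean hPRD hGEO L H hH
  have hE2 := GPA_sq hPRD hGEO L H hH
  set W : (Fin L → ℕ) → ℝ≥0∞ := fun m => ∏ i, wt H (m i) with hW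
  have hinner : ∀ m : Fin L → ℕ, ∑' m' : Fin L → ℕ, W m * W m' *
      (ENNReal.ofReal (p ^ 2) * (((∑ b, m b : ℕ) : ℝ≥0∞) * ((∑ i, m' i : ℕ) : ℝ≥0∞) ^ 2
        + ((∑ b, m b : ℕ) : ℝ≥0∞) ^ 2 * ((∑ i, m' i : ℕ) : ℝ≥0∞)))
      ≤ ENNReal.ofReal (p ^ 2) * ((W m * ((∑ b, m b : ℕ) : ℝ≥0∞)) *
        (3 * (L : ℝ≥0∞) ^ 2 * (H : ℝ≥0∞) ^ 2) +
          (W m * ((∑ b, m b : ℕ) : ℝ≥0∞) ^ 2) * (L * H)) := by
    intro m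
    have h2 : ∀ m' : Fin L → ℕ, W m * W m' *
      (ENNReal.ofReal (p ^ 2) * (((∑ b, m b : ℕ) : ℝ≥0∞) * ((∑ i, m' i : ℕ) : ℝ≥0∞) ^ 2
        + ((∑ b, m b : ℕ) : ℝ≥0∞) ^ 2 * ((∑ i, m' i : ℕ) : ℝ≥0∞)))
        = (ENNReal.ofReal (p ^ 2) * (W m * ((∑ b, m b : ℕ) : ℝ≥0∞))) *
            (W m' * ((∑ i, m' i : ℕ) : ℝ≥0∞) ^ 2)
          + (ENNReal.ofReal (p ^ 2) * (W m * ((∑ b, m b : ℕ) : ℝ≥0∞) ^ 2)) *
            (W m' * ((∑ i, m' i : ℕ) : ℝ≥0∞)) := by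
      intro m'
      ring
    rw [tsum_congr h2, ENNReal.tsum_add, ENNReal.tsum_mul_left, ENNReal.tsum_mul_left, hE1]
    calc (ENNReal.ofReal (p ^ 2) * (W m * ((∑ b, m b : ℕ) : ℝ≥0∞))) *
            (∑' m' : Fin L → ℕ, W m' * ((∑ i, m' i : ℕ) : ℝ≥0∞) ^ 2)
          + (ENNReal.ofReal (p ^ 2) * (W m * ((∑ b, m b : ℕ) : ℝ≥0∞) ^ 2)) * (L * H)
        ≤ (ENNReal.ofReal (p ^ 2) * (W m * ((∑ b, m b : ℕ) : ℝ≥0∞))) *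
            (3 * (L : ℝ≥0∞) ^ 2 * (H : ℝ≥0∞) ^ 2)
          + (ENNReal.ofReal (p ^ 2) * (W m * ((∑ b, m b : ℕ) : ℝ≥0∞) ^ 2)) * (L * H) := by
          gcongr
      _ = _ := by ring
  have hmain : Pav L H p (fun S => ¬ GP S) ≤ ENNReal.ofReal (p ^ 2) *
      (6 * (L : ℝ≥0∞) ^ 3 * (H : ℝ≥0∞) ^ 3) := by
    unfold Pav
    calc ∑' m : Fin L → ℕ, ∑' m' : Fin L → ℕ, (∏ b, wt H (m b)) * (∏ i, wt H (m' i)) *
          ENNReal.ofReal (Pr (Finset.range (∑ b, m b) ×ˢ Finset.range (∑ i, m' i)) p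
            (fun S => ¬ GP S))
        ≤ ∑' m : Fin L → ℕ, ∑' m' : Fin L → ℕ, W m * W m' *
      (ENNReal.ofReal (p ^ 2) * (((∑ b, m b : ℕ) : ℝ≥0∞) * ((∑ i, m' i : ℕ) : ℝ≥0∞) ^ 2
        + ((∑ b, m b : ℕ) : ℝ≥0∞) ^ 2 * ((∑ i, m' i : ℕ) : ℝ≥0∞))) :=
          ENNReal.tsum_le_tsum fun m => ENNReal.tsum_le_tsum fun m' => by
            gcongr
            exact hbound _ _
      _ ≤ ∑' m : Fin L → ℕ, ENNReal.ofReal (p ^ 2) * ((W m * ((∑ b, m b : ℕ) : ℝ≥0∞)) *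
        (3 * (L : ℝ≥0∞) ^ 2 * (H : ℝ≥0∞) ^ 2) +
          (W m * ((∑ b, m b : ℕ) : ℝ≥0∞) ^ 2) * (L * H)) :=
          ENNReal.tsum_le_tsum hinner
      _ = ENNReal.ofReal (p ^ 2) * ((L * H) * (3 * (L : ℝ≥0∞) ^ 2 * (H : ℝ≥0∞) ^ 2) +
          (∑' m : Fin L → ℕ, W m * ((∑ b, m b : ℕ) : ℝ≥0∞) ^ 2) * (L * H)) := by
          rw [ENNReal.tsum_mul_left, ENNReal.tsum_add, ENNReal.tsum_mul_right,
            ENNReal.tsum_mul_right, hE1]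
      _ ≤ ENNReal.ofReal (p ^ 2) * ((L * H) * (3 * (L : ℝ≥0∞) ^ 2 * (H : ℝ≥0∞) ^ 2) +
          (3 * (L : ℝ≥0∞) ^ 2 * (H : ℝ≥0∞) ^ 2) * (L * H)) := by gcongr
      _ = _ := by ring
  refine hmain.trans (le_of_eq ?_)
  have h2 : (6 * (L : ℝ≥0∞) ^ 3 * (H : ℝ≥0∞) ^ 3) = ENNReal.ofReal ((6 * L ^ 3 * H ^ 3 : ℕ) : ℝ) := by
    rw [ENNReal.ofReal_natCast]
    push_cast
    rfl
  rw [h2, ← ENNReal.ofReal_mul (by positivity)]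
  congr 1
  push_cast
  rw [hp]
  field_simp

end

end Pool.Agent.DSW
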